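import Pool.Agent.helper58.CRO.SpecG

open scoped Manifold ContDiff Topology ENNReal
open MeasureTheory Set Bundle Filter

noncomputable section

namespace Pool.Agent.CRO

universe u

theorem GDJ_fix {n : ℕ} {M : Type u} [TopologicalSpace M] [ChartedSpace (En n) M]
    [IsManifold (𝓡 n) ∞ M] (h2 : GAU_stmt.{u}) (h3 : GOP_stmt.{u}) (g : RMetric n M)
    (χ : OpenPartialHomeomorph M (En n)) (m : M) (r2 : ℝ) (hr : 0 < r2) (hN : IsNormalAt g χ m r2)
    (w : En n) (s : ℝ) (hs : |s| * ‖w‖ < r2) : gop g χ (s • w) w = w := by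
  obtain ⟨hmax, htgt, hmem, h0, hcoef0, hgeo⟩ := hN
  have hy : ‖s • w‖ < r2 := by rw [norm_smul, Real.norm_eq_abs]; exact hs
  have hyt : s • w ∈ χ.target := by rw [htgt, mem_ball_zero_iff]; exact hy
  obtain ⟨hg1, -, -, -, -⟩ := h3 n M g χ hmax (s • w) hyt
  by_cases hs0 : s = 0
  · subst hs0
    rw [zero_smul] at hg1 ⊢
    refine ext_inner_right ℝ fun v => ?_
    rw [hg1, hcoef0]
  · have h4 : gop g χ (s • w) (s • w) = s • w := by
      refine ext_inner_right ℝ fun v => ?_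
      rw [hg1]
      exact (h2 n M g χ m r2 hr ⟨hmax, htgt, hmem, h0, hcoef0, hgeo⟩).2 (s • w) v hy
    have h5 : s • gop g χ (s • w) w = s • w := by
      rw [← map_smul]
      exact h4
    exact smul_right_injective _ hs0 h5

theorem GDJ_orb {n : ℕ} {M : Type u} [TopologicalSpace M] [ChartedSpace (En n) M]
    [IsManifold (𝓡 n) ∞ M] (h1 : ORB_stmt.{u}) (h2 : GAU_stmt.{u}) (h3 : GOP_stmt.{u})
    (g : RMetric n M)
    (χ : OpenPartialHomeomorph M (En n)) (m : M) (r2 : ℝ) (hr : 0 < r2) (hN : IsNormalAt g χ m r2)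
    (𝒢 : NChart n r2) (hR : Repr g χ 𝒢) (w : En n) (t : ℝ) (ht : |t| * ‖w‖ < r2) :
    HasDerivAt (fun s : ℝ => ((s • w, w) : PS n)) (hvf (ham 𝒢) (t • w, w)) t := by
  have hN' := hN
  obtain ⟨hmax, htgt, hmem, h0, hcoef0, hgeo⟩ := hN
  have hopen : IsOpen {s : ℝ | |s| * ‖w‖ < r2} :=
    isOpen_lt (continuous_abs.mul continuous_const) continuous_const
  have htg : ∀ s : ℝ, |s| * ‖w‖ < r2 → s • w ∈ χ.target := by
    intro s hs
    rw [htgt, mem_ball_zero_iff, norm_smul, Real.norm_eq_abs]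
    exact hs
  have hchi : ∀ s : ℝ, |s| * ‖w‖ < r2 → χ (χ.symm (s • w)) = s • w := fun s hs =>
    χ.right_inv (htg s hs)
  have hder : ∀ s : ℝ, |s| * ‖w‖ < r2 → deriv (fun u : ℝ => χ (χ.symm (u • w))) s = w := by
    intro s hs
    have he : (fun u : ℝ => χ (χ.symm (u • w))) =ᶠ[𝓝 s] fun u : ℝ => u • w := by
      filter_upwards [hopen.mem_nhds hs] with u hu
      exact hchi u hu
    rw [he.deriv_eq]
    have := ((hasDerivAt_id s).smul_const w).deriv
    simpa using this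
  have h4 := h1 n M g χ r2 𝒢 (fun s => χ.symm (s • w)) {s : ℝ | |s| * ‖w‖ < r2} hmax htgt hR hopen
    (hgeo w) t ht (χ.map_target (htg t ht))
  have he : (fun s : ℝ => ((χ (χ.symm (s • w)), gop g χ (χ (χ.symm (s • w)))
      (deriv (fun u : ℝ => χ (χ.symm (u • w))) s)) : PS n)) =ᶠ[𝓝 t] fun s : ℝ => ((s • w, w) : PS n) := by
    filter_upwards [hopen.mem_nhds ht] with s hs
    rw [hchi s hs, hder s hs, GDJ_fix h2 h3 g χ m r2 hr hN' w s hs]
  have h5 := h4.congr_of_eventuallyEq he.symm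
  have h6 : ((χ (χ.symm (t • w)), gop g χ (χ (χ.symm (t • w)))
      (deriv (fun u : ℝ => χ (χ.symm (u • w))) t)) : PS n) = (t • w, w) := he.eq_of_nhds
  have h7 : hvf (ham 𝒢) ((χ (χ.symm (t • w)), gop g χ (χ (χ.symm (t • w)))
      (deriv (fun u : ℝ => χ (χ.symm (u • w))) t)) : PS n) = hvf (ham 𝒢) (t • w, w) := by rw [h6]
  rw [← h7]
  exact h5

theorem GDJ (h1 : ORB_stmt.{u}) (h2 : GAU_stmt.{u}) (h3 : GOP_stmt.{u}) (h4 : NCH_stmt.{u})
    (h5 : GDL_stmt.{u}) (h6 : GTR_stmt.{u}) (h7 : BAL_stmt.{u}) : GDJ_stmt.{u} := by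
  intro n hn M _ _ _ _ g m r' r2 hr' hr2 hI
  have hr2' : 0 < r2 := hr'.trans hr2
  obtain ⟨χ, hmax, htgt, hmem, h0, hcoef0, hgeo⟩ := hI m
  have hN : IsNormalAt g χ m r2 := ⟨hmax, htgt, hmem, h0, hcoef0, hgeo⟩
  obtain ⟨𝒢, hR⟩ := h4 n M g χ m r2 hr2' hN
  set v : En n := EuclideanSpace.single (⟨0, by omega⟩ : Fin n) (1 : ℝ) with hv
  have hv1 : ‖v‖ = 1 := by
    rw [hv, EuclideanSpace.norm_single]
    simp
  have hcen : ∀ y : En n, ‖y‖ ≤ r' / 2 → gdist g m (χ.symm y) ≤ ENNReal.ofReal (r' / 2) := by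
    intro y hy
    refine le_of_forall_gt_imp_ge_of_dense ?_
    intro a ha
    rcases le_or_gt (ENNReal.ofReal r') a with h | h
    · have := h7 n M g χ m r2 hr2' hN r' y (by linarith) hr2.le
      exact (le_of_lt this).trans h
    · have hat : a ≠ ⊤ := (h.trans_le le_top).ne
      have hρ1 : r' / 2 < a.toReal := by
        rw [← ENNReal.ofReal_lt_iff_lt_toReal (by linarith) hat]
        exact ha
      have hρ2 : a.toReal < r' := by
        rw [← ENNReal.lt_ofReal_iff_toReal_lt hat]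
        exact h
      have := h7 n M g χ m r2 hr2' hN a.toReal y (by linarith) (by linarith)
      have h8 : gdist g m (χ.symm y) < ENNReal.ofReal a.toReal := this
      rw [ENNReal.ofReal_toReal hat] at h8
      exact h8.le
  have hsub : ∀ y : En n, ‖y‖ ≤ r' / 2 → gball g (χ.symm y) (r' / 2) ⊆ gball g m r' := by
    intro y hy x hx
    have hx' : gdist g (χ.symm y) x < ENNReal.ofReal (r' / 2) := hx
    show gdist g m x < ENNReal.ofReal r'
    have h8 := (h6 n M g m (χ.symm y) x).2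
    have h9 := hcen y hy
    have h10 : ENNReal.ofReal r' = ENNReal.ofReal (r' / 2) + ENNReal.ofReal (r' / 2) := by
      rw [← ENNReal.ofReal_add (by linarith) (by linarith)]
      congr 1
      ring
    rw [h10]
    refine h8.trans_lt ?_
    exact ENNReal.add_lt_add_of_le_of_lt (ne_top_of_le_ne_top ENNReal.ofReal_ne_top h9) h9 hx'
  -- the orbit
  obtain ⟨s, hs0, hs1, hsr⟩ : ∃ s : ℝ, 0 < s ∧ s < 1 ∧ r' / s < r2 := by
    refine ⟨(r' / r2 + 1) / 2, ?_, ?_, ?_⟩
    · have : 0 < r' / r2 := div_pos hr' hr2'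
      linarith
    · have : r' / r2 < 1 := (div_lt_one hr2').2 hr2
      linarith
    · have h8 : r' / r2 < 1 := (div_lt_one hr2').2 hr2
      have h9 : 0 < r' / r2 := div_pos hr' hr2'
      rw [div_lt_iff₀ (by linarith)]
      have h10 : r' = r2 * (r' / r2) := by field_simp
      have h11 : r2 * (r' / r2) < r2 * ((r' / r2 + 1) / 2) := by
        apply mul_lt_mul_of_pos_left _ hr2'
        linarith
      linarith
  set w : En n := s • v with hw
  have hwn : ‖w‖ = s := by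
    rw [hw, norm_smul, hv1, Real.norm_eq_abs, abs_of_pos hs0, mul_one]
  set t0 : ℝ := r' / (2 * s) with ht0
  have ht0s : t0 * s = r' / 2 := by
    rw [ht0]
    field_simp
  set T : ℝ := r' / s with hT
  have hT2 : T = 2 * t0 := by
    rw [hT, ht0]
    field_simp
  have ht0p : 0 < t0 := by rw [ht0]; positivity
  have hT0 : 0 ≤ T := by rw [hT2]; linarith
  set c : ℝ → PS n := fun t => ((t - t0) • w, w) with hc
  have habs : ∀ t ∈ Icc 0 T, |t - t0| * ‖w‖ ≤ r' / 2 := by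
    intro t ht
    have h8 : |t - t0| ≤ t0 := by
      rw [abs_le]
      constructor
      · linarith [ht.1]
      · linarith [ht.2]
    rw [hwn, ← ht0s]
    exact mul_le_mul_of_nonneg_right h8 hs0.le
  have hc0 : c 0 = (-(r' / 2) • v, w) := by
    show ((0 - t0) • w, w) = _
    rw [hw, smul_smul]
    congr 2
    rw [zero_sub, neg_mul, ht0s]
  have hcT : (c T).1 = (r' / 2) • v := by
    show (T - t0) • w = _
    rw [hw, smul_smul]
    congr 1
    rw [hT2, ← ht0s]
    ring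
  have hnr : nrm2 𝒢 (c 0) = s ^ 2 := by
    have h8 : |(-(r' / 2) / s)| * ‖w‖ < r2 := by
      rw [hwn, abs_div, abs_neg, abs_of_pos hs0, abs_of_pos (by linarith : 0 < r' / 2)]
      rw [div_mul_cancel₀ _ hs0.ne']
      linarith
    have h9 := GDJ_fix h2 h3 g χ m r2 hr2' hN w _ h8
    have h10 : ((-(r' / 2) / s)) • w = -(r' / 2) • v := by
      rw [hw, smul_smul, div_mul_cancel₀ _ hs0.ne']
    rw [h10] at h9
    have hyn : ‖(-(r' / 2)) • v‖ < r2 := by
      rw [norm_smul, hv1, Real.norm_eq_abs, abs_neg, abs_of_pos (by linarith), mul_one]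
      linarith
    have hyt : (-(r' / 2)) • v ∈ χ.target := by rw [htgt, mem_ball_zero_iff]; exact hyn
    obtain ⟨-, -, -, hinv, -⟩ := h3 n M g χ hmax _ hyt
    have h11 := hinv w
    rw [h9] at h11
    unfold nrm2
    rw [hc0]
    show inner ℝ (𝒢.G ((-(r' / 2)) • v) w) w = s ^ 2
    rw [hR _ hyn, h11, real_inner_self_eq_norm_sq, hwn]
  have hsp : sp 𝒢 (c 0) = s := by
    unfold sp
    rw [hnr, Real.sqrt_sq hs0.le]
  have hGDL := h5 n M g χ r2 r2 𝒢 hmax htgt hR hI c T hT0 hsr (by rw [hnr]; nlinarith) (by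
    intro t ht
    constructor
    · show ‖(t - t0) • w‖ < r2
      rw [norm_smul, Real.norm_eq_abs]
      linarith [habs t ht]
    · have h8 := GDJ_orb h1 h2 h3 g χ m r2 hr2' hN 𝒢 hR w (t - t0) (by linarith [habs t ht])
      exact h8.comp_sub_const t t0)
  rw [hsp, hcT, hc0] at hGDL
  have hsT : s * T = r' := by
    rw [hT]
    field_simp
  rw [hsT] at hGDL
  have hn1 : ‖(-(r' / 2)) • v‖ ≤ r' / 2 := by
    rw [norm_smul, hv1, Real.norm_eq_abs, abs_neg, abs_of_pos (by linarith), mul_one]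
  have hn2 : ‖(r' / 2) • v‖ ≤ r' / 2 := by
    rw [norm_smul, hv1, Real.norm_eq_abs, abs_of_pos (by linarith), mul_one]
  refine ⟨χ.symm (-(r' / 2) • v), χ.symm ((r' / 2) • v), ?_, hsub _ hn1, hsub _ hn2⟩
  rw [Set.disjoint_left]
  intro x hx1 hx2
  have hx1' : gdist g (χ.symm (-(r' / 2) • v)) x < ENNReal.ofReal (r' / 2) := hx1
  have hx2' : gdist g (χ.symm ((r' / 2) • v)) x < ENNReal.ofReal (r' / 2) := hx2
  have h8 := (h6 n M g (χ.symm (-(r' / 2) • v)) x (χ.symm ((r' / 2) • v))).2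
  have h9 := (h6 n M g x (χ.symm ((r' / 2) • v)) x).1
  rw [h9] at h8
  have h10 : ENNReal.ofReal r' = ENNReal.ofReal (r' / 2) + ENNReal.ofReal (r' / 2) := by
    rw [← ENNReal.ofReal_add (by linarith) (by linarith)]
    congr 1
    ring
  have h11 := ENNReal.add_lt_add hx1' hx2'
  rw [← h10] at h11
  exact absurd (hGDL.trans (h8.trans h11.le)) (by
    intro _
    exact absurd (hGDL.trans h8) (not_le.2 h11))

end Pool.Agent.CRO
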